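import Pool.Agent.LPG.Main2

/-!
# A counting obstruction to linkedness (MP_c76e9d_co, upper bound)

`not_linked`: if the graph has fewer than `2 k + m` vertices (and at least `2 k`), and there are `m ≤ k`
disjoint pairs of non-adjacent vertices, then it is not `k`-linked: extend the `m` pairs to `k`
pairs; the second vertex of the path of each of the `m` pairs is not one of the `2 k` terminals.
-/

set_option autoImplicit false

namespace Pool.Agent.LPU

open Pool.Agent.LPG

/-- Extension of an injective map. -/
theorem exists_extend {α β V : Type*} [Fintype β] [Fintype V] (ι : α → β)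
    (hι : Function.Injective ι) (f : α → V) (hf : Function.Injective f)
    (hc : Fintype.card β ≤ Fintype.card V) :
    ∃ g : β → V, Function.Injective g ∧ ∀ x, g (ι x) = f x := by
  classical
  obtain ⟨e⟩ := Function.Embedding.nonempty_of_card_le hc
  have he : Function.Injective (fun x => e (ι x)) := e.injective.comp hι
  let E : {v : V // v ∈ Set.range (fun x => e (ι x))} ≃ {v : V // v ∈ Set.range f} :=
    (Equiv.ofInjective _ he).symm.trans (Equiv.ofInjective _ hf)
  refine ⟨fun b => (Equiv.extendSubtype E) (e b), ?_, fun x => ?_⟩
  · exact (Equiv.injective _).comp e.injective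
  · have hx : e (ι x) ∈ Set.range (fun x => e (ι x)) := ⟨x, rfl⟩
    show (Equiv.extendSubtype E) (e (ι x)) = f x
    rw [Equiv.extendSubtype_apply_of_mem E _ hx]
    have h1 : (Equiv.ofInjective _ he).symm ⟨e (ι x), hx⟩ = x := by
      rw [Equiv.symm_apply_eq]
      rfl
    show ((Equiv.ofInjective _ hf) ((Equiv.ofInjective _ he).symm ⟨e (ι x), hx⟩) : V) = f x
    rw [h1]
    rfl

theorem not_linked {V : Type*} [Fintype V] (G : SimpleGraph V) {k m : ℕ} (hm : m ≤ k)
    (hk : 2 * k ≤ Fintype.card V) (hk2 : Fintype.card V < 2 * k + m) (a b : Fin m → V)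
    (hab : Function.Injective (Sum.elim a b)) (hn : ∀ i, ¬ G.Adj (a i) (b i)) :
    ¬ IsKLinked G k := by
  classical
  intro hL
  obtain ⟨g, hg, hgf⟩ := exists_extend (Sum.map (Fin.castLE hm) (Fin.castLE hm))
    ((Fin.castLE_injective hm).sumMap (Fin.castLE_injective hm)) (Sum.elim a b) hab
    (by rw [Fintype.card_sum, Fintype.card_fin]; omega)
  set s : Fin k → V := fun i => g (Sum.inl i) with hs
  set t : Fin k → V := fun i => g (Sum.inr i) with ht
  have hst : Sum.elim s t = g := by
    funext x
    rcases x with x | x <;> rfl
  obtain ⟨p, _, hdis⟩ := hL s t (by rw [hst]; exact hg)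
  have hsa : ∀ i : Fin m, s (Fin.castLE hm i) = a i := fun i => hgf (Sum.inl i)
  have htb : ∀ i : Fin m, t (Fin.castLE hm i) = b i := fun i => hgf (Sum.inr i)
  have hne : ∀ i, s i ≠ t i := by
    intro i h
    have := hg h
    simp at this
  -- the second vertices
  have hnil : ∀ i, ¬ (p i).Nil := fun i => SimpleGraph.Walk.not_nil_of_ne (hne i)
  set w : Fin m → V := fun i => (p (Fin.castLE hm i)).snd with hw
  have hwadj : ∀ i, G.Adj (s (Fin.castLE hm i)) (w i) := fun i =>
    SimpleGraph.Walk.adj_snd (hnil _)
  have hwsup : ∀ i, w i ∈ (p (Fin.castLE hm i)).support := fun i =>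
    SimpleGraph.Walk.getVert_mem_support _ _
  have hwinj : Function.Injective w := by
    intro i j hij
    by_contra hne'
    have h1 : Fin.castLE hm i ≠ Fin.castLE hm j := fun h => hne' (Fin.castLE_injective hm h)
    have h2 := hdis _ _ h1
    exact h2 (hwsup i) (hij ▸ hwsup j)
  have hwT : ∀ i x, w i ≠ g x := by
    intro i x hx
    rcases x with l | l
    · have hl : w i ∈ (p l).support := by
        rw [hx]
        exact (p l).start_mem_support
      by_cases hil : Fin.castLE hm i = l
      · subst hil
        have := hwadj i
        rw [hx] at this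
        exact G.loopless.irrefl _ this
      · exact hdis _ _ hil (hwsup i) hl
    · have hl : w i ∈ (p l).support := by
        rw [hx]
        exact (p l).end_mem_support
      by_cases hil : Fin.castLE hm i = l
      · subst hil
        have h3 := hwadj i
        rw [hx, hsa] at h3
        have h4 : g (Sum.inr (Fin.castLE hm i)) = b i := htb i
        rw [h4] at h3
        exact hn i h3
      · exact hdis _ _ hil (hwsup i) hl
  have hinj : Function.Injective (Sum.elim g w) := by
    rintro (x | x) (y | y) hxy
    · exact congrArg _ (hg hxy)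
    · exact absurd hxy.symm (hwT y x)
    · exact absurd hxy (hwT x y)
    · exact congrArg _ (hwinj hxy)
  have h5 := Fintype.card_le_of_injective _ hinj
  rw [Fintype.card_sum, Fintype.card_sum, Fintype.card_fin, Fintype.card_fin] at h5
  omega

end Pool.Agent.LPU
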