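import Pool.Agent.LPU.Pts
import Pool.Agent.LPU.NonLink

/-!
# A simplex with many vertices added near one edge (MP_c76e9d_co, upper bound)

The vertices `0`, `e_i`, and `x e_0 + (1 - x ^ 2) e_1` for `x = 1 / (M + 1), ..., M / (M + 1)`.
-/

set_option autoImplicit false

namespace Pool.Agent.LPU

open Pool.Agent.LPG

section

variable {d M : ℕ}

noncomputable def xx (M : ℕ) (t : Fin M) : ℝ := ((t : ℕ) + 1 : ℝ) / (M + 1)

theorem xx_pos (t : Fin M) : 0 < xx M t := by
  unfold xx
  positivity

theorem xx_lt (t : Fin M) : xx M t < 1 := by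
  unfold xx
  have h1 : ((t : ℕ) : ℝ) < M := by exact_mod_cast t.2
  rw [div_lt_one (by positivity)]
  linarith

theorem xx_inj {t s : Fin M} (h : xx M t = xx M s) : t = s := by
  unfold xx at h
  have h0 : (0 : ℝ) < M + 1 := by positivity
  rw [div_left_inj' h0.ne'] at h
  have h1 : ((t : ℕ) : ℝ) = s := by linarith
  exact Fin.ext (by exact_mod_cast h1)

variable (hd : 2 ≤ d)

def i0 : Fin d := ⟨0, by omega⟩
def i1 : Fin d := ⟨1, by omega⟩

noncomputable def pt2 : Option (Fin d) ⊕ Fin M → Eu d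
  | Sum.inl none => 0
  | Sum.inl (some i) => un i
  | Sum.inr t => xx M t • un (i0 hd) + (1 - xx M t ^ 2) • un (i1 hd)

theorem co_pt2 (i : Fin d) (t : Fin M) : co i (pt2 hd (Sum.inr t)) =
    (if (i : ℕ) = 0 then xx M t else 0) + (if (i : ℕ) = 1 then 1 - xx M t ^ 2 else 0) := by
  show co i (xx M t • un (i0 hd) + (1 - xx M t ^ 2) • un (i1 hd)) = _
  rw [map_add, map_smul, map_smul, co_un, co_un]
  simp only [Fin.ext_iff, i0, i1, smul_eq_mul, mul_ite, mul_one, mul_zero]

theorem co_pt2' (i i' : Fin d) : co i (pt2 (M := M) hd (Sum.inl (some i'))) =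
    if (i : ℕ) = i' then 1 else 0 := by
  show co i (un i') = _
  rw [co_un]
  simp only [Fin.ext_iff]

theorem co_pt2'' (i : Fin d) : co i (pt2 (M := M) hd (Sum.inl none)) = 0 := by
  show co i (0 : Eu d) = 0
  exact map_zero _

theorem neg_lt2 {i : Fin d} {x y : Eu d} (h : co i y < co i x) :
    (- co i) x < (- co i) y := neg_lt_neg h

theorem comb_lt {i i' : Fin d} {c : ℝ} {x y : Eu d}
    (h : co i y + c * co i' y < co i x + c * co i' x) :
    (- (co i + c • co i')) x < (- (co i + c • co i')) y := neg_lt_neg h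

theorem exposed2 : Exposed (pt2 (M := M) hd) := by
  rintro ((_ | i) | t)
  · -- the vertex `0`
    refine ⟨∑ i, co i, ?_⟩
    rintro ((_ | i') | t') h
    · exact absurd rfl h
    · show (∑ i, co i) (0 : Eu d) < (∑ i, co i) (un i')
      rw [map_zero, LinearMap.sum_apply]
      simp only [co_un]
      simp
    · show (∑ i, co i) (0 : Eu d) <
        (∑ i, co i) (xx M t' • un (i0 hd) + (1 - xx M t' ^ 2) • un (i1 hd))
      rw [map_zero, map_add, map_smul, map_smul, LinearMap.sum_apply, LinearMap.sum_apply]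
      simp only [co_un]
      have h1 := xx_pos t'
      have h2 := xx_lt t'
      simp only [Finset.sum_ite_eq', Finset.mem_univ, if_true, smul_eq_mul, mul_one]
      nlinarith
  · refine ⟨- co i, ?_⟩
    rintro ((_ | i') | t') h
    · apply neg_lt2
      rw [co_pt2'', co_pt2', if_pos rfl]
      exact one_pos
    · have hne : (i : ℕ) ≠ i' := fun h' => h (by rw [Fin.ext h'])
      apply neg_lt2
      rw [co_pt2', co_pt2', if_pos rfl, if_neg hne]
      exact one_pos
    · apply neg_lt2
      have h1 := xx_pos t'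
      have h2 := xx_lt t'
      rw [co_pt2, co_pt2', if_pos rfl]
      split_ifs <;> first | (exfalso; omega) | nlinarith
  · have h3 := xx_pos t
    have h4 := xx_lt t
    refine ⟨- (co (i1 hd) + (2 * xx M t) • co (i0 hd)), ?_⟩
    have e1 : ((i1 hd : Fin d) : ℕ) = 1 := rfl
    have e0 : ((i0 hd : Fin d) : ℕ) = 0 := rfl
    have e2 : co (i1 hd) (pt2 hd (Sum.inr t)) = 1 - xx M t ^ 2 := by
      rw [co_pt2, e1]
      norm_num
    have e3 : co (i0 hd) (pt2 hd (Sum.inr t)) = xx M t := by
      rw [co_pt2, e0]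
      norm_num
    rintro ((_ | i') | t') h
    · apply comb_lt
      rw [co_pt2'', co_pt2'', e2, e3]
      nlinarith
    · apply comb_lt
      rw [co_pt2', co_pt2', e1, e0, e2, e3]
      have h5 : 0 < (1 - xx M t) ^ 2 := by
        have : 0 < 1 - xx M t := by linarith
        positivity
      split_ifs <;> first | (exfalso; omega) | nlinarith
    · apply comb_lt
      have hne : xx M t' ≠ xx M t := fun h' => h (by rw [xx_inj h'])
      rw [e2, e3, co_pt2, co_pt2, e1, e0]
      have h5 : 0 < (xx M t' - xx M t) ^ 2 := by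
        have : xx M t' - xx M t ≠ 0 := sub_ne_zero.2 hne
        positivity
      norm_num
      nlinarith

/-- The vertex set. -/
noncomputable def V2 (M : ℕ) : Finset (Eu d) := by
  classical
  exact Finset.univ.image (pt2 (M := M) hd)

theorem mem_V2 (v : Eu d) : v ∈ V2 hd M ↔ ∃ i, pt2 (M := M) hd i = v := by
  classical
  unfold V2
  rw [Finset.mem_image]
  simp

theorem card_V2 : (V2 hd M).card = d + 1 + M := by
  classical
  unfold V2
  rw [Finset.card_image_of_injective _ (exposed_inj (exposed2 hd)), Finset.card_univ]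
  simp

theorem convexPos_V2 : ConvexPos (V2 hd M) := convexPos_of_exposed (exposed2 hd) (mem_V2 hd)

theorem affineSpan_V2 : affineSpan ℝ (V2 hd M : Set (Eu d)) = ⊤ :=
  affineSpan_top ((mem_V2 hd _).2 ⟨Sum.inl none, rfl⟩)
    (fun i => (mem_V2 hd _).2 ⟨Sum.inl (some i), rfl⟩)

theorem not_edge2 (t : Fin M) :
    ¬ IsEdge (V2 hd M) (pt2 (M := M) hd (Sum.inl none)) (pt2 hd (Sum.inr t)) := by
  have hinj := exposed_inj (exposed2 (M := M) hd)
  have h1 := xx_pos t
  have h2 := xx_lt t
  have h3 : 0 < 1 - xx M t ^ 2 := by nlinarith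
  refine not_edge_of_comb (u' := pt2 (M := M) hd (Sum.inl (some (i0 hd))))
    (v' := pt2 (M := M) hd (Sum.inl (some (i1 hd)))) h1 h3 rfl ((mem_V2 hd _).2 ⟨_, rfl⟩)
    ((mem_V2 hd _).2 ⟨_, rfl⟩) ?_ ?_ ?_ ?_
  · intro h
    have := hinj (a₁ := Sum.inl (some (i0 hd))) (a₂ := Sum.inl none) h
    simp at this
  · intro h
    have := hinj h
    simp at this
  · intro h
    have := hinj (a₁ := Sum.inl (some (i1 hd))) (a₂ := Sum.inl none) h
    simp at this
  · intro h
    have := hinj h
    simp at this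

theorem not_linked2 {k : ℕ} (h2 : d + 2 ≤ 2 * k) :
    ¬ IsKLinked (polyGraph (V2 hd (2 * k - d - 1))) k := by
  have hinj := exposed_inj (exposed2 (M := 2 * k - d - 1) hd)
  let P : Option (Fin d) ⊕ Fin (2 * k - d - 1) → V2 hd (2 * k - d - 1) :=
    fun i => ⟨pt2 hd i, (mem_V2 hd _).2 ⟨i, rfl⟩⟩
  have hP : Function.Injective P := fun x y h => hinj (congrArg Subtype.val h)
  have hc : Fintype.card (V2 hd (2 * k - d - 1)) = 2 * k := by
    rw [Fintype.card_coe, card_V2]
    omega
  have t : Fin (2 * k - d - 1) := ⟨0, by omega⟩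
  refine not_linked (polyGraph (V2 hd (2 * k - d - 1))) (m := 1) (by omega) (by rw [hc])
    (by rw [hc]; omega) (fun _ => P (Sum.inl none)) (fun _ => P (Sum.inr t)) ?_ ?_
  · rintro (x | x) (y | y) hxy
    · rw [Subsingleton.elim x y]
    · have := hP hxy
      simp at this
    · have := hP hxy
      simp at this
    · rw [Subsingleton.elim x y]
  · intro i h
    exact not_edge2 hd t h

end

end Pool.Agent.LPU
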