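import Pool.Agent.LPG.TopDefs

/-!
# Point sets with exposing functionals (MP_c76e9d_co, upper bound)
-/

set_option autoImplicit false

namespace Pool.Agent.LPU

open Pool.Agent.LPG

/-- every point of the family is the unique minimum of a linear functional -/
def Exposed {ι : Type*} {d : ℕ} (pt : ι → Eu d) : Prop :=
  ∀ i, ∃ f : Eu d →ₗ[ℝ] ℝ, ∀ j, j ≠ i → f (pt i) < f (pt j)

theorem exposed_inj {ι : Type*} {d : ℕ} {pt : ι → Eu d} (h : Exposed pt) :
    Function.Injective pt := by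
  intro i j hij
  by_contra hne
  obtain ⟨f, hf⟩ := h i
  have := hf j (Ne.symm hne)
  rw [hij] at this
  exact lt_irrefl _ this

theorem convexPos_of_exposed {ι : Type*} [Fintype ι] {d : ℕ} {pt : ι → Eu d} (h : Exposed pt)
    {V : Finset (Eu d)} (hV : ∀ v, v ∈ V ↔ ∃ i, pt i = v) : ConvexPos V := by
  intro v hv hmem
  obtain ⟨i, rfl⟩ := (hV v).1 hv
  obtain ⟨f, hf⟩ := h i
  have hsub : ((V : Set (Eu d)) \ {pt i}) ⊆ {x | f (pt i) < f x} := by
    rintro w ⟨hw, hne⟩
    obtain ⟨j, rfl⟩ := (hV w).1 hw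
    refine hf j ?_
    rintro rfl
    exact hne rfl
  have hconv : Convex ℝ {x | f (pt i) < f x} := by
    intro x hx y hy a b ha hb hab
    simp only [Set.mem_ofPred_eq, map_add, map_smul, smul_eq_mul] at *
    rcases ha.eq_or_lt with ha0 | ha0
    · subst ha0
      have hb1 : b = 1 := by linarith
      subst hb1
      linarith
    · have h1 : a * f (pt i) < a * f x := mul_lt_mul_of_pos_left hx ha0
      have h2 : b * f (pt i) ≤ b * f y := mul_le_mul_of_nonneg_left hy.le hb
      have h3 : f (pt i) = a * f (pt i) + b * f (pt i) := by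
        rw [← add_mul, hab, one_mul]
      linarith
  have h9 : f (pt i) < f (pt i) := convexHull_min hsub hconv hmem
  exact lt_irrefl _ h9

/-- the `i`-th unit vector -/
noncomputable def un {d : ℕ} (i : Fin d) : Eu d := EuclideanSpace.single i (1 : ℝ)

/-- the `i`-th coordinate -/
noncomputable def co {d : ℕ} (i : Fin d) : Eu d →ₗ[ℝ] ℝ where
  toFun x := x i
  map_add' _ _ := rfl
  map_smul' _ _ := rfl

theorem co_un {d : ℕ} (i j : Fin d) : co i (un j) = if i = j then 1 else 0 := by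
  unfold co un
  simp [PiLp.single_apply]

theorem co_un_same {d : ℕ} (i : Fin d) : co i (un i) = 1 := by
  rw [co_un, if_pos rfl]

theorem co_un_ne {d : ℕ} {i j : Fin d} (h : i ≠ j) : co i (un j) = 0 := by
  rw [co_un, if_neg h]

theorem affineSpan_top {d : ℕ} {V : Finset (Eu d)} (h0 : (0 : Eu d) ∈ V)
    (h1 : ∀ i : Fin d, un i ∈ V) : affineSpan ℝ (V : Set (Eu d)) = ⊤ := by
  have hne : (V : Set (Eu d)).Nonempty := ⟨0, h0⟩
  rw [AffineSubspace.affineSpan_eq_top_iff_vectorSpan_eq_top_of_nonempty ℝ (Eu d) (Eu d) hne]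
  rw [eq_top_iff, ← (EuclideanSpace.basisFun (Fin d) ℝ).toBasis.span_eq, Submodule.span_le]
  rintro _ ⟨i, rfl⟩
  have h2 := vsub_mem_vectorSpan ℝ (Finset.mem_coe.2 (h1 i)) (Finset.mem_coe.2 h0)
  simpa [un] using h2

/-- crossing segments are not edges -/
theorem not_edge_of_cross {d : ℕ} {V : Finset (Eu d)} {u v u' v' : Eu d} (h : u + v = u' + v')
    (hu : u' ∈ V) (hv : v' ∈ V) (h1 : u' ≠ u) (h2 : u' ≠ v) (h3 : v' ≠ u) (h4 : v' ≠ v) :
    ¬ IsEdge V u v := by
  rintro ⟨_, f, hf, hfV⟩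
  have e1 := hfV u' hu h1 h2
  have e2 := hfV v' hv h3 h4
  have e3 : f u + f v = f u' + f v' := by rw [← map_add, ← map_add, h]
  linarith

/-- the segment from `0` to a positive combination of two other points is not an edge -/
theorem not_edge_of_comb {d : ℕ} {V : Finset (Eu d)} {v u' v' : Eu d} {α β : ℝ} (hα : 0 < α)
    (hβ : 0 < β) (h : v = α • u' + β • v') (hu : u' ∈ V) (hv : v' ∈ V) (h1 : u' ≠ 0)
    (h2 : u' ≠ v) (h3 : v' ≠ 0) (h4 : v' ≠ v) : ¬ IsEdge V 0 v := by
  rintro ⟨_, f, hf, hfV⟩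
  have e1 := hfV u' hu h1 h2
  have e2 := hfV v' hv h3 h4
  have e3 : f v = α * f u' + β * f v' := by
    rw [h, map_add, map_smul, map_smul, smul_eq_mul, smul_eq_mul]
  rw [map_zero] at hf e1 e2
  have e4 := mul_neg_of_pos_of_neg hα e1
  have e5 := mul_neg_of_pos_of_neg hβ e2
  linarith

end Pool.Agent.LPU
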