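import Pool.Agent.LPU.Pts
import Pool.Agent.LPU.NonLink

/-!
# Join of squares and a simplex (MP_c76e9d_co, upper bound)

The vertices `0`, `e_i`, and `e_(3l) + e_(3l+1) - e_(3l+2)` for `l < j`, where `3 j ≤ d`.
-/

set_option autoImplicit false

namespace Pool.Agent.LPU

open Pool.Agent.LPG

section

variable {d j : ℕ} (hj : 3 * j ≤ d)

def ia (l : Fin j) : Fin d := ⟨3 * l, by omega⟩
def ic (l : Fin j) : Fin d := ⟨3 * l + 1, by omega⟩
def ib (l : Fin j) : Fin d := ⟨3 * l + 2, by omega⟩

noncomputable def qq (l : Fin j) : Eu d := un (ia hj l) + un (ic hj l) - un (ib hj l)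

noncomputable def pt1 : Option (Fin d) ⊕ Fin j → Eu d
  | Sum.inl none => 0
  | Sum.inl (some i) => un i
  | Sum.inr l => qq hj l

theorem co_qq (i : Fin d) (l : Fin j) : co i (qq hj l) =
    (if (i : ℕ) = 3 * l then 1 else 0) + (if (i : ℕ) = 3 * l + 1 then 1 else 0) -
      (if (i : ℕ) = 3 * l + 2 then 1 else 0) := by
  unfold qq
  rw [map_sub, map_add, co_un, co_un, co_un]
  simp only [Fin.ext_iff, ia, ic, ib]

theorem co_un' (i i' : Fin d) : co i (un i') = if (i : ℕ) = i' then 1 else 0 := by
  rw [co_un]
  simp only [Fin.ext_iff]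

theorem dif_lt {i i' : Fin d} {x y : Eu d} (h : co i x - co i' x < co i y - co i' y) :
    (co i - co i') x < (co i - co i') y := h

theorem neg_lt' {i : Fin d} {x y : Eu d} (h : - co i x < - co i y) :
    (- co i) x < (- co i) y := h

theorem exposed1 : Exposed (pt1 hj) := by
  rintro ((_ | i) | l)
  · -- the vertex `0`
    refine ⟨∑ i, co i, ?_⟩
    rintro ((_ | i') | l') h
    · exact absurd rfl h
    · show (∑ i, co i) (0 : Eu d) < (∑ i, co i) (un i')
      rw [map_zero, LinearMap.sum_apply]
      simp only [co_un]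
      simp
    · show (∑ i, co i) (0 : Eu d) < (∑ i, co i) (qq hj l')
      rw [map_zero]
      unfold qq
      rw [map_sub, map_add, LinearMap.sum_apply, LinearMap.sum_apply, LinearMap.sum_apply]
      simp only [co_un]
      simp
  · by_cases hi : (i : ℕ) < 3 * j
    · have hl : (i : ℕ) / 3 < j := by omega
      rcases (show (i : ℕ) % 3 = 0 ∨ (i : ℕ) % 3 = 1 ∨ (i : ℕ) % 3 = 2 by omega) with h3 | h3 | h3
      · refine ⟨co ⟨i + 1, by omega⟩ - co i, ?_⟩
        rintro ((_ | i') | l') h
        · apply dif_lt
          simp only [pt1, co_un', map_zero]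
          split_ifs <;> first | (exfalso; omega) | norm_num
        · have hne : (i' : ℕ) ≠ i := fun h' => h (by rw [Fin.ext h'])
          apply dif_lt
          simp only [pt1, co_un']
          split_ifs <;> first | (exfalso; omega) | norm_num
        · apply dif_lt
          simp only [pt1, co_un', co_qq]
          split_ifs <;> first | (exfalso; omega) | norm_num
      · refine ⟨co ⟨i - 1, by omega⟩ - co i, ?_⟩
        rintro ((_ | i') | l') h
        · apply dif_lt
          simp only [pt1, co_un', map_zero]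
          split_ifs <;> first | (exfalso; omega) | norm_num
        · have hne : (i' : ℕ) ≠ i := fun h' => h (by rw [Fin.ext h'])
          apply dif_lt
          simp only [pt1, co_un']
          split_ifs <;> first | (exfalso; omega) | norm_num
        · apply dif_lt
          simp only [pt1, co_un', co_qq]
          split_ifs <;> first | (exfalso; omega) | norm_num
      · refine ⟨- co i, ?_⟩
        rintro ((_ | i') | l') h
        · apply neg_lt'
          simp only [pt1, co_un', map_zero]
          split_ifs <;> first | (exfalso; omega) | norm_num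
        · have hne : (i' : ℕ) ≠ i := fun h' => h (by rw [Fin.ext h'])
          apply neg_lt'
          simp only [pt1, co_un']
          split_ifs <;> first | (exfalso; omega) | norm_num
        · apply neg_lt'
          simp only [pt1, co_un', co_qq]
          split_ifs <;> first | (exfalso; omega) | norm_num
    · refine ⟨- co i, ?_⟩
      rintro ((_ | i') | l') h
      · apply neg_lt'
        simp only [pt1, co_un', map_zero]
        split_ifs <;> first | (exfalso; omega) | norm_num
      · have hne : (i' : ℕ) ≠ i := fun h' => h (by rw [Fin.ext h'])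
        apply neg_lt'
        simp only [pt1, co_un']
        split_ifs <;> first | (exfalso; omega) | norm_num
      · have hl' := l'.2
        apply neg_lt'
        simp only [pt1, co_un', co_qq]
        split_ifs <;> first | (exfalso; omega) | norm_num
  · refine ⟨co (ib hj l), ?_⟩
    rintro ((_ | i') | l') h
    · simp only [pt1, co_qq, map_zero, ib]
      split_ifs <;> first | (exfalso; omega) | norm_num
    · simp only [pt1, co_qq, co_un', ib]
      split_ifs <;> first | (exfalso; omega) | norm_num
    · have hne : (l' : ℕ) ≠ l := fun h' => h (by rw [Fin.ext h'])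
      simp only [pt1, co_qq, ib]
      split_ifs <;> first | (exfalso; omega) | norm_num

/-- The vertex set. -/
noncomputable def V1 : Finset (Eu d) := by
  classical
  exact Finset.univ.image (pt1 hj)

theorem mem_V1 (v : Eu d) : v ∈ V1 hj ↔ ∃ i, pt1 hj i = v := by
  classical
  unfold V1
  rw [Finset.mem_image]
  simp

theorem card_V1 : (V1 hj).card = d + 1 + j := by
  classical
  unfold V1
  rw [Finset.card_image_of_injective _ (exposed_inj (exposed1 hj)), Finset.card_univ]
  simp

theorem convexPos_V1 : ConvexPos (V1 hj) := convexPos_of_exposed (exposed1 hj) (mem_V1 hj)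

theorem affineSpan_V1 : affineSpan ℝ (V1 hj : Set (Eu d)) = ⊤ :=
  affineSpan_top ((mem_V1 hj _).2 ⟨Sum.inl none, rfl⟩)
    (fun i => (mem_V1 hj _).2 ⟨Sum.inl (some i), rfl⟩)

/-- The first ends of the `2 j` diagonals. -/
noncomputable def fa (x : Fin j ⊕ Fin j) : Option (Fin d) ⊕ Fin j :=
  match x with
  | Sum.inl l => Sum.inl (some (ia hj l))
  | Sum.inr l => Sum.inl (some (ib hj l))

/-- The second ends of the `2 j` diagonals. -/
noncomputable def fb (x : Fin j ⊕ Fin j) : Option (Fin d) ⊕ Fin j :=
  match x with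
  | Sum.inl l => Sum.inl (some (ic hj l))
  | Sum.inr l => Sum.inr l

theorem fab_inj : Function.Injective (Sum.elim (fa hj) (fb hj)) := by
  rintro ((x | x) | (x | x)) ((y | y) | (y | y)) h <;>
    simp only [Sum.elim_inl, Sum.elim_inr, fa, fb, Sum.inl.injEq, Sum.inr.injEq,
      Option.some.injEq, Fin.ext_iff, ia, ib, ic, reduceCtorEq] at h <;>
    first
    | (exfalso; omega)
    | (have hxy : x = y := Fin.ext (by omega)
       rw [hxy])

theorem not_edge1 (x : Fin j ⊕ Fin j) :
    ¬ IsEdge (V1 hj) (pt1 hj (fa hj x)) (pt1 hj (fb hj x)) := by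
  have hinj := exposed_inj (exposed1 hj)
  have key : ∀ l : Fin j, un (ia hj l) + un (ic hj l) = un (ib hj l) + qq hj l := by
    intro l
    unfold qq
    abel
  rcases x with l | l
  · refine not_edge_of_cross (u' := pt1 hj (fa hj (Sum.inr l))) (v' := pt1 hj (fb hj (Sum.inr l)))
      (key l) ((mem_V1 hj _).2 ⟨_, rfl⟩) ((mem_V1 hj _).2 ⟨_, rfl⟩) ?_ ?_ ?_ ?_
    · intro h
      have := @fab_inj d j hj (Sum.inl (Sum.inr l)) (Sum.inl (Sum.inl l)) (hinj h)
      simp at this
    · intro h
      have := @fab_inj d j hj (Sum.inl (Sum.inr l)) (Sum.inr (Sum.inl l)) (hinj h)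
      simp at this
    · intro h
      have := @fab_inj d j hj (Sum.inr (Sum.inr l)) (Sum.inl (Sum.inl l)) (hinj h)
      simp at this
    · intro h
      have := @fab_inj d j hj (Sum.inr (Sum.inr l)) (Sum.inr (Sum.inl l)) (hinj h)
      simp at this
  · refine not_edge_of_cross (u' := pt1 hj (fa hj (Sum.inl l))) (v' := pt1 hj (fb hj (Sum.inl l)))
      (key l).symm ((mem_V1 hj _).2 ⟨_, rfl⟩) ((mem_V1 hj _).2 ⟨_, rfl⟩) ?_ ?_ ?_ ?_
    · intro h
      have := @fab_inj d j hj (Sum.inl (Sum.inl l)) (Sum.inl (Sum.inr l)) (hinj h)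
      simp at this
    · intro h
      have := @fab_inj d j hj (Sum.inl (Sum.inl l)) (Sum.inr (Sum.inr l)) (hinj h)
      simp at this
    · intro h
      have := @fab_inj d j hj (Sum.inr (Sum.inl l)) (Sum.inl (Sum.inr l)) (hinj h)
      simp at this
    · intro h
      have := @fab_inj d j hj (Sum.inr (Sum.inl l)) (Sum.inr (Sum.inr l)) (hinj h)
      simp at this

theorem not_linked1 {k : ℕ} (h1 : 2 * j ≤ k) (h2 : 2 * k ≤ d + 1) (h3 : d + 1 < 2 * k + j) :
    ¬ IsKLinked (polyGraph (V1 hj)) k := by
  have hinj := exposed_inj (exposed1 hj)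
  let P : Option (Fin d) ⊕ Fin j → V1 hj := fun i => ⟨pt1 hj i, (mem_V1 hj _).2 ⟨i, rfl⟩⟩
  have hP : Function.Injective P := fun x y h => hinj (congrArg Subtype.val h)
  let σ : Fin (2 * j) ≃ Fin j ⊕ Fin j := (finCongr (by omega)).trans finSumFinEquiv.symm
  have hc : Fintype.card (V1 hj) = d + 1 + j := by
    rw [Fintype.card_coe, card_V1]
  refine not_linked (polyGraph (V1 hj)) (m := 2 * j) h1 (by rw [hc]; omega) (by rw [hc]; omega)
    (fun i => P (fa hj (σ i))) (fun i => P (fb hj (σ i))) ?_ ?_
  · have h4 : Sum.elim (fun i => P (fa hj (σ i))) (fun i => P (fb hj (σ i))) =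
        P ∘ (Sum.elim (fa hj) (fb hj)) ∘ (Sum.map σ σ) := by
      funext x
      rcases x with x | x <;> rfl
    rw [h4]
    exact hP.comp ((fab_inj hj).comp (σ.injective.sumMap σ.injective))
  · intro i h
    exact not_edge1 hj (σ i) h

end

end Pool.Agent.LPU
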