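import Pool.Agent.LPU.Squares
import Pool.Agent.LPU.Polygon

/-!
# The upper bound `k(d) ≤ ⌊(2 d + 3) / 5⌋` (MP_c76e9d_co)

Gallivan's upper bound, for every `d ≥ 2` and every `k` with `2 d + 3 < 5 k`: some full-dimensional
polytope in `ℝ ^ d` has a graph that is not `k`-linked.
-/

set_option autoImplicit false

namespace Pool.Agent.LPU

open Pool.Agent.LPG

/-- **Gallivan's upper bound.** -/
theorem upper {d k : ℕ} (hd : 2 ≤ d) (hk : 2 * d + 3 < 5 * k) :
    ∃ V : Finset (Eu d), ConvexPos V ∧ affineSpan ℝ (V : Set (Eu d)) = ⊤ ∧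
      ¬ IsKLinked (polyGraph V) k := by
  by_cases h : 2 * k ≤ d + 1
  · have hj : 3 * (d + 2 - 2 * k) ≤ d := by omega
    exact ⟨V1 hj, convexPos_V1 hj, affineSpan_V1 hj,
      not_linked1 hj (by omega) h (by omega)⟩
  · exact ⟨V2 hd (2 * k - d - 1), convexPos_V2 hd, affineSpan_V2 hd,
      not_linked2 hd (by omega)⟩

/-- Packaging: with the lower bound `hlow`, the largest `k` such that every full-dimensional
polytope of `ℝ ^ d` is `k`-linked is `⌊(2 d + 3) / 5⌋`. -/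
theorem isGreatest_of {d : ℕ} (hd : 2 ≤ d)
    (hlow : ∀ (k : ℕ) (V : Finset (Eu d)), ConvexPos V → affineSpan ℝ (V : Set (Eu d)) = ⊤ →
      5 * k ≤ 2 * d + 3 → IsKLinked (polyGraph V) k) :
    IsGreatest {k : ℕ | ∀ V : Finset (Eu d), ConvexPos V → affineSpan ℝ (V : Set (Eu d)) = ⊤ →
      IsKLinked (polyGraph V) k} ((2 * d + 3) / 5) := by
  refine ⟨fun V h1 h2 => hlow _ V h1 h2 (by omega), fun k hk => ?_⟩
  by_contra h
  obtain ⟨V, h1, h2, h3⟩ := upper hd (show 2 * d + 3 < 5 * k by omega)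
  exact h3 (hk V h1 h2)

end Pool.Agent.LPU
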